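import Pool.Agent.H92.Learn3

set_option autoImplicit false
open MeasureTheory ProbabilityTheory Filter Topology
open scoped ENNReal

namespace Pool.Agent.Results.MP_a79c01_pr.Learning

/-- outcomes: the state `θ` and the private signals `s 0, s 1, …` -/
abbrev Om := Bool × (ℕ → Fin 4)

/-- uniform prior on the state; given the state `θ` the signals are i.i.d. with law `F θ` -/
noncomputable def law (F : Bool → PMF (Fin 4)) : Measure Om :=
  ∑ θ : Bool, (2⁻¹ : ℝ≥0∞) • (Measure.dirac θ).prod (Measure.infinitePi fun _ => (F θ).toMeasure)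

/-- what agent `n` knows at `ω`: her signal and the actions of her neighbours -/
def info (N : ℕ → Finset ℕ) (a : ℕ → Om → Bool) (n : ℕ) (ω : Om) : Set Om :=
  {ω' | ω'.2 n = ω.2 n ∧ ∀ m ∈ N n, a m ω' = a m ω}

/-- posterior expected payoff of the action `t` for agent `n` at `ω` -/
noncomputable def payoff (F : Bool → PMF (Fin 4)) (N : ℕ → Finset ℕ) (a : ℕ → Om → Bool) (n : ℕ)
    (ω : Om) (t : Bool) : ℝ≥0∞ :=
  (law F)[{ω' | ω'.1 = t} | info N a n ω]

/-- every agent maximises her posterior payoff; ties go to `true` iff the signal is `2` or `3` -/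
def Rational (F : Bool → PMF (Fin 4)) (N : ℕ → Finset ℕ) (a : ℕ → Om → Bool) : Prop :=
  ∀ n ω, a n ω = true ↔ payoff F N a n ω false < payoff F N a n ω true ∨
    (payoff F N a n ω false = payoff F N a n ω true ∧ 2 ≤ ω.2 n)

open Pool.Agent.H92.Learn Finset Function
open scoped Classical

noncomputable def sig (θ : Bool) : PMF (Fin 4) :=
  PMF.ofFintype (fun s => ENNReal.ofReal (f θ s)) (by
    rw [← ENNReal.ofReal_sum_of_nonneg fun s _ => (f_pos θ s).le, f_sum, ENNReal.ofReal_one])

noncomputable abbrev mu (θ : Bool) : Measure (ℕ → Fin 4) :=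
  Measure.infinitePi fun _ => (sig θ).toMeasure

variable (N : ℕ → Finset ℕ)

noncomputable def hist : ℕ → (ℕ → Fin 4) → H
  | 0, _ => fun _ => false
  | n + 1, s => update (hist n s) n (rule (vw N W n (hist n s)) (s n))

lemma hist_dep (n : ℕ) {s s' : ℕ → Fin 4} (e : ∀ i < n, s i = s' i) : hist N n s = hist N n s' := by
  induction n with
  | zero => rfl
  | succ n ih => rw [hist, hist, ih fun i hi => e i (by omega), e n (by omega)]

lemma hist_lt {i n : ℕ} (h : i < n) (s : ℕ → Fin 4) : hist N n s i = hist N (i + 1) s i := by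
  induction n, h using Nat.le_induction with
  | base => rfl
  | succ n h ih => rw [hist, update_of_ne (by omega), ih]

lemma hist_pre (n : ℕ) (P : H → Prop) : ∃ B, {s | P (hist N n s)} =
    (fun (s : ℕ → Fin 4) (i : range n) => s i) ⁻¹' B :=
  ⟨{r | P (hist N n fun i => if h : i ∈ range n then r ⟨i, h⟩ else 0)}, Set.ext fun s => by
    rw [Set.mem_preimage, Set.mem_ofPred_eq, Set.mem_ofPred_eq, hist_dep N n (s := s)]
    exact fun i hi => by simp [hi]⟩

lemma hist_meas (n : ℕ) (P : H → Prop) : MeasurableSet {s | P (hist N n s)} := by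
  obtain ⟨B, hB⟩ := hist_pre N n P
  rw [hB]
  exact (show Measurable fun (s : ℕ → Fin 4) (i : range n) => s i by fun_prop) .of_discrete

lemma hist_ind (θ : Bool) (n : ℕ) (P : H → Prop) (σ : Fin 4) :
    (mu θ).real ({s | P (hist N n s)} ∩ {s | s n = σ}) =
      (mu θ).real {s | P (hist N n s)} * f θ σ := by
  obtain ⟨B, hB⟩ := hist_pre N n P
  have h := ((iIndepFun_infinitePi (P := fun _ : ℕ => (sig θ).toMeasure)
    (X := fun _ (a : Fin 4) => a) fun _ => measurable_id).indepFun_finset (range n) {n} (by simp)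
    fun _ => measurable_pi_apply _).measure_inter_preimage_eq_mul B
    {r | r ⟨n, mem_singleton_self n⟩ = σ} .of_discrete .of_discrete
  have h2 := ((measurePreserving_eval_infinitePi (fun _ : ℕ => (sig θ).toMeasure) n).measure_preimage
    (s := {σ}) MeasurableSet.of_discrete.nullMeasurableSet).trans
    ((sig θ).toMeasure_apply_singleton σ .of_discrete)
  rw [hB, measureReal_def, measureReal_def, ← ENNReal.toReal_ofReal (f_pos θ σ).le,
    ← ENNReal.toReal_mul]
  exact congrArg _ (h.trans (congrArg _ h2))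

lemma hist_law (θ : Bool) (n : ℕ) : ∀ (P : H → Prop) [DecidablePred P],
    (mu θ).real {s | P (hist N n s)} = Ex N W n θ fun h => if P h then 1 else 0 := by
  induction n with
  | zero =>
    intro P _
    by_cases c : P fun _ => false <;> simp [hist, Ex_zero, c]
  | succ n ih =>
    intro P _
    have h1 : {s | P (hist N (n + 1) s)} = ⋃ σ ∈ (univ : Finset (Fin 4)),
        {s | P (update (hist N n s) n (rule (vw N W n (hist N n s)) σ))} ∩ {s | s n = σ} := by
      ext s
      simp [hist]
    rw [h1, measureReal_biUnion_finset (fun a _ b _ hab => Set.disjoint_left.2 fun s e e' =>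
      hab ((show s n = a from e.2).symm.trans e'.2)) fun σ _ => (hist_meas N n fun h =>
        P (update h n (rule (vw N W n h) σ))).inter (measurableSet_eq_fun (by fun_prop) measurable_const),
      sum_congr rfl fun σ _ => (hist_ind N θ n (fun h => P (update h n (rule (vw N W n h) σ))) σ).trans
        (by rw [ih fun h => P (update h n (rule (vw N W n h) σ)), mul_comm, ← Ex_mul]), ← Ex_sum, Ex_succ]
    refine Ex_congr fun h _ => ?_
    simp only [pr, sum_mul]
    rw [sum_comm]
    exact sum_congr rfl fun σ _ => by cases rule (vw N W n h) σ <;> simp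

lemma law_real (t : Bool) (Q : Set (ℕ → Fin 4)) :
    law sig ({t} ×ˢ Q) = ENNReal.ofReal (W t * (mu t).real Q) := by
  rw [W, ENNReal.ofReal_mul (by norm_num), ofReal_measureReal, law]
  cases t <;> simp [Measure.prod_prod, ENNReal.ofReal_inv_of_pos]

lemma unique {F : Bool → PMF (Fin 4)} {N : ℕ → Finset ℕ} (wf : ∀ n, ∀ m ∈ N n, m < n)
    {a b : ℕ → Om → Bool} (ha : Rational F N a) (hb : Rational F N b) : a = b := by
  funext n
  induction n using Nat.strong_induction_on with
  | _ n ih =>
    funext ω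
    have : info N a n ω = info N b n ω := Set.ext fun ω' => and_congr_right fun _ =>
      forall₂_congr fun m hm => by rw [ih m (wf n m hm)]
    rw [Bool.eq_iff_iff, ha, hb]
    simp only [payoff, this]

lemma main : ∃ F : Bool → PMF (Fin 4), (∀ θ θ' s, F θ s ≤ 2 * F θ' s) ∧ F false ≠ F true ∧
    ∃ N : ℕ → Finset ℕ, (∀ n, ∀ m ∈ N n, m < n) ∧ ∃ a : ℕ → Om → Bool, Rational F N a ∧
      Tendsto (fun n => law F {ω | a n ω = ω.1}) atTop (𝓝 1) := by
  obtain ⟨N, wf, hN⟩ := exists_net
  refine ⟨sig, fun θ θ' s => ?_, fun h => ?_, N, fun n m hm => mem_range.1 (wf n hm),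
    fun n ω => hist N (n + 1) ω.2 n, fun n ω => ?_, ?_⟩
  · simpa [sig, ENNReal.ofReal_mul] using ENNReal.ofReal_le_ofReal (f_le θ θ' s)
  · have := congrArg (fun p : PMF (Fin 4) => (p 0).toReal) h
    simp only [sig, PMF.ofFintype_apply, ENNReal.toReal_ofReal (f_pos _ _).le, fv] at this
    norm_num at this
  · set I := info N (fun n ω => hist N (n + 1) ω.2 n) n ω with hI
    have h1 : ∀ t, law sig (I ∩ {ω' | ω'.1 = t}) =
        ENNReal.ofReal (vw N W n (hist N n ω.2) t * f t (ω.2 n)) := fun t => by
      rw [vw, mul_assoc]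
      refine Eq.trans (congrArg _ ?_) ((law_real t _).trans (congrArg (ENNReal.ofReal <| W t * ·)
        ((hist_ind N t n (fun h => ∀ i ∈ N n, h i = hist N n ω.2 i) (ω.2 n)).trans
          (by rw [hist_law N t n fun h => ∀ i ∈ N n, h i = hist N n ω.2 i]; rfl))))
      ext ω'
      simp only [hI, info, Set.mem_inter_iff, Set.mem_ofPred_eq, Set.mem_prod, Set.mem_singleton_iff]
      rw [forall₂_congr fun i hi => by
        rw [← hist_lt N (mem_range.1 (wf n hi)), ← hist_lt N (mem_range.1 (wf n hi))]]
      tauto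
    have h2 : ∀ t, 0 ≤ vw N W n (hist N n ω.2) t * f t (ω.2 n) := fun t => mul_nonneg
      (mul_nonneg (by simp [W]) (Ex_nonneg (cfg_nonneg _ _))) (f_pos _ _).le
    have h3 : ∀ t, payoff sig N (fun n ω => hist N (n + 1) ω.2 n) n ω t =
        (law sig I)⁻¹ * law sig (I ∩ {ω' | ω'.1 = t}) := fun t =>
      cond_apply' (measurable_fst (.of_discrete (s := {t}))) _
    have h4 : law sig I ≠ ∞ := by simp [law, ENNReal.mul_eq_top]
    rw [h3, h3]
    simp only []
    rw [hist, update_self, rule, decide_eq_true_iff,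
      ← ENNReal.ofReal_lt_ofReal_iff_of_nonneg (h2 _), ← ENNReal.ofReal_eq_ofReal_iff (h2 _) (h2 _),
      ← h1, ← h1]
    by_cases c : law sig I = 0
    · simp [measure_mono_null Set.inter_subset_left c]
    · rw [ENNReal.mul_lt_mul_iff_right (by simpa) (by simpa), ENNReal.mul_right_inj (by simpa) (by simpa)]
  · have h1 : ∀ n, law sig {ω | hist N (n + 1) ω.2 n = ω.1} =
        ENNReal.ofReal (1 - err N W (n + 1) (· n)) := fun n => by
      have e : {ω : Om | hist N (n + 1) ω.2 n = ω.1} = {false} ×ˢ {s | hist N (n + 1) s n = false} ∪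
          {true} ×ˢ {s | hist N (n + 1) s n = true} := by
        ext ⟨t, s⟩
        cases t <;> simp
      have e2 : ∀ θ, Ex N W (n + 1) θ (fun h => if h n = false then 1 else 0) +
          Ex N W (n + 1) θ (fun h => if h n = true then 1 else 0) = 1 := fun θ => by
        rw [← Ex_add]
        exact (Ex_congr fun h _ => by cases h n <;> simp).trans (Ex_const _ _ 1)
      rw [e, measure_union (by simp [Set.disjoint_prod])
        (.prod .of_discrete (hist_meas N _ (· n = true))), law_real, law_real,
        ← ENNReal.ofReal_add (by simp [W]) (by simp [W]), hist_law N _ _ (· n = false),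
        hist_law N _ _ (· n = true), err]
      congr 1
      have := e2 true
      have := e2 false
      simp only [W] at *
      linarith
    simp only [h1]
    simpa using ENNReal.tendsto_ofReal (hN.const_sub 1)

theorem result : ∃ F : Bool → PMF (Fin 4), (∀ θ θ' s, F θ s ≤ 2 * F θ' s) ∧ F false ≠ F true ∧
    ∃ N : ℕ → Finset ℕ, (∀ n, ∀ m ∈ N n, m < n) ∧ (∃ a, Rational F N a) ∧
      ∀ a, Rational F N a → Tendsto (fun n => law F {ω | a n ω = ω.1}) atTop (𝓝 1) := by
  obtain ⟨F, h1, h2, N, h3, a, h4, h5⟩ := main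
  exact ⟨F, h1, h2, N, h3, ⟨a, h4⟩, fun b hb => unique h3 h4 hb ▸ h5⟩

end Pool.Agent.Results.MP_a79c01_pr.Learning
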